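import Mathlib
import Pool.Agent.Work.MP_db9399_lt.Interface
import Pool.Agent.Work.MP_db9399_lt.Base

/-!
# MP_db9399, THEOREM LT, block STR (helper99)
-/

set_option autoImplicit false

namespace Pool.Agent.Work.MP_db9399_lt.helper99

open Finset Classical
open Pool.Agent.Work.MP_db9399_all (nb)
open Pool.Agent.Work.MP_db9399_nc (nn PEC Mts)

universe u

set_option linter.unusedSectionVars false

section str
variable {V : Type u} [Fintype V]

/-- a fixed point free involution of an even set -/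
lemma pairing : ∀ (n : ℕ) (Y : Finset V), Y.card = n + n →
    ∃ P : V → V, (∀ v, P (P v) = v) ∧ ∀ v, P v ≠ v ↔ v ∈ Y := by
  intro n
  induction n with
  | zero =>
    intro Y hY
    refine ⟨id, fun _ => rfl, fun v => ?_⟩
    have : Y = ∅ := Finset.card_eq_zero.mp (by omega)
    subst this
    simp
  | succ n ih =>
    intro Y hY
    obtain ⟨a, ha⟩ : Y.Nonempty := by rw [← Finset.card_pos]; omega
    obtain ⟨b, hb⟩ : (Y.erase a).Nonempty := by
      rw [← Finset.card_pos, Finset.card_erase_of_mem ha]; omega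
    obtain ⟨P, h1, h2⟩ := ih ((Y.erase a).erase b) (by
      rw [card_erase_of_mem hb, card_erase_of_mem ha]; omega)
    have hba : b ≠ a := ne_of_mem_erase hb
    have hbY : b ∈ Y := mem_of_mem_erase hb
    have ha' : P a = a := by
      by_contra h
      exact absurd ((h2 a).mp h) (by simp)
    have hb' : P b = b := by
      by_contra h
      exact absurd ((h2 b).mp h) (by simp)
    refine ⟨fun v => if v = a then b else if v = b then a else P v, ?_, ?_⟩
    · intro v
      by_cases hva : v = a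
      · subst hva; simp [hba]
      · by_cases hvb : v = b
        · subst hvb; simp [hva]
        · have h3 : P v ≠ a := fun h => hva (by rw [← h1 v, h, ha'])
          have h4 : P v ≠ b := fun h => hvb (by rw [← h1 v, h, hb'])
          simp [hva, hvb, h3, h4, h1]
    · intro v
      by_cases hva : v = a
      · subst hva; simp [hba, ha]
      · by_cases hvb : v = b
        · subst hvb; simp [hva, Ne.symm hva, hbY]
        · simp only [hva, hvb, if_false]
          rw [h2 v]
          simp [hva, hvb]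

/-- an involution of a set: the parity of the set is the parity of the number of fixed points -/
lemma even_fix (Z : Finset V) (f : V → V) (hf : ∀ v, f (f v) = v) (hZ : ∀ v ∈ Z, f v ∈ Z) :
    (Even Z.card ↔ Even (Z.filter (fun v => f v = v)).card) := by
  have h1 : (Z.filter (fun v => f v = v)).card + (Z.filter (fun v => ¬ f v = v)).card =
      Z.card := Finset.card_filter_add_card_filter_not _
  have h2 : Even (Z.filter (fun v => ¬ f v = v)).card := by
    refine even_supp f _ ?_ (fun v _ => hf v) ?_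
    · intro v hv
      rw [Finset.mem_filter] at hv ⊢
      exact ⟨hZ v hv.1, fun h => hv.2 (by rw [hf] at h; exact h.symm)⟩
    · intro v hv
      exact (Finset.mem_filter.mp hv).2
  rw [← h1, Nat.even_add]
  tauto

/-- the matchings without the edges at the vertices of `X` -/
noncomputable def N1 (Q1 : Finset ℕ) (X : ℕ → Finset V) (N : ℕ → V → V) : ℕ → V → V :=
  fun b v => if b ∈ Q1 ∧ (v ∈ X b ∨ N b v ∈ X b) then v else N b v

/-- the vertices which have to be covered -/
noncomputable def Yb (F : V → Finset ℕ) (p : V → Fin 3) (C : Fin 3 → Finset ℕ) (Q1 : Finset ℕ)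
    (X : ℕ → Finset V) (su : ℕ → V) (N : ℕ → V → V) (b : ℕ) : Finset V :=
  univ.filter (fun v => b ∉ C (p v) ∧ b ∉ F v ∧ N1 Q1 X N b v = v ∧ ¬ (b ∈ Q1 ∧ v ∈ X b) ∧
    ¬ ∃ i, b ∈ od F p C i ∧ v = su b)

lemma N1_of_ne {Q1 : Finset ℕ} {X : ℕ → Finset V} {N : ℕ → V → V} {b : ℕ} {v : V}
    (h : N1 Q1 X N b v ≠ v) : N1 Q1 X N b v = N b v ∧ N b v ≠ v ∧
      ¬ (b ∈ Q1 ∧ (v ∈ X b ∨ N b v ∈ X b)) := by
  unfold N1 at h ⊢
  by_cases h1 : b ∈ Q1 ∧ (v ∈ X b ∨ N b v ∈ X b)
  · simp [h1] at h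
  · simp only [h1, if_false] at h ⊢
    exact ⟨trivial, h, not_false⟩

lemma N1_not {Q1 : Finset ℕ} {X : ℕ → Finset V} {N : ℕ → V → V} {b : ℕ} (hb : b ∉ Q1) (v : V) :
    N1 Q1 X N b v = N b v := by
  simp [N1, hb]

lemma N1_mts {G : SimpleGraph V} {B Q1 : Finset ℕ} {X : ℕ → Finset V} {N : ℕ → V → V}
    (hN : Mts G B N) : Mts G B (N1 Q1 X N) := by
  constructor
  · intro b hb v
    by_cases h : N1 Q1 X N b v = v
    · rw [h, h]
    · obtain ⟨h1, h2, h3⟩ := N1_of_ne h
      rw [h1]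
      unfold N1
      rw [if_neg, hN.inv b hb]
      rintro ⟨h4, h5⟩
      rw [hN.inv b hb] at h5
      exact h3 ⟨h4, h5.symm⟩
  · intro b hb v h
    obtain ⟨h1, h2, -⟩ := N1_of_ne h
    rw [h1]
    exact hN.adj b hb v h2
  · intro b hb b' hb' hne v h
    obtain ⟨h1, h2, -⟩ := N1_of_ne h
    by_cases h' : N1 Q1 X N b' v = v
    · rw [h']; exact h
    · rw [h1, (N1_of_ne h').1]
      exact hN.dis b hb b' hb' hne v h2


section main
variable {G : SimpleGraph V} {d x y h s : ℕ} {F : V → Finset ℕ} {p : V → Fin 3} {a : V → Bool}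
  {C0 C : Fin 3 → Finset ℕ} {Q1 Q2 : Finset ℕ} {su sv e1 e2 : ℕ → V} {N : ℕ → V → V}
  {τ : ℕ → Fin 3 → Prop} {X : ℕ → Finset V}

lemma C_uniq (R : PRE G d x h s F p C Q1 Q2 su sv e1 e2 N) {b : ℕ} {i j : Fin 3}
    (hi : b ∈ C i) (hj : b ∈ C j) : i = j := by
  by_contra hne
  exact (Finset.disjoint_left.mp (R.dC i j hne)) hi hj

lemma C_notQ (R : PRE G d x h s F p C Q1 Q2 su sv e1 e2 N) {b : ℕ} {i : Fin 3}
    (hi : b ∈ C i) : b ∉ Q1 :=
  (Finset.disjoint_left.mp (R.dC1 i)) hi

lemma C_B {b : ℕ} {i : Fin 3} (hi : b ∈ C i) : b ∈ cc C ∪ Q1 :=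
  Finset.mem_union_left _ (mem_cc.mpr ⟨i, hi⟩)

lemma Q_B {b : ℕ} (hi : b ∈ Q1) : b ∈ cc C ∪ Q1 := Finset.mem_union_right _ hi

lemma B_cases {b : ℕ} (hb : b ∈ cc C ∪ Q1) : (∃ i, b ∈ C i) ∨ b ∈ Q1 := by
  rcases Finset.mem_union.mp hb with h | h
  · exact Or.inl (mem_cc.mp h)
  · exact Or.inr h

lemma mem_Yb {b : ℕ} {v : V} : v ∈ Yb F p C Q1 X su N b ↔
    b ∉ C (p v) ∧ b ∉ F v ∧ N1 Q1 X N b v = v ∧ ¬ (b ∈ Q1 ∧ v ∈ X b) ∧
    ¬ ∃ i, b ∈ od F p C i ∧ v = su b := by
  simp [Yb]

lemma X_card (S : XS F p Q1 τ X) {b : ℕ} (hb : b ∈ Q1) :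
    (X b).card = (univ.filter (fun i => τ b i)).card := by
  rw [Finset.card_eq_sum_card_fiberwise (f := p) (t := univ) (fun v _ => Finset.mem_univ _),
    Finset.card_filter]
  exact Finset.sum_congr rfl fun i _ => S.num b hb i

lemma X_le (S : XS F p Q1 τ X) {b : ℕ} (hb : b ∈ Q1) : (X b).card ≤ 3 := by
  rw [X_card S hb]
  exact (Finset.card_le_univ _).trans (by simp)

lemma Yb_even (R : PRE G d x h s F p C Q1 Q2 su sv e1 e2 N) (T : TG F p C (Q1 ∪ Q2) τ)
    (S : XS F p Q1 τ X) {b : ℕ} (hb : b ∈ cc C ∪ Q1) :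
    Even (Yb F p C Q1 X su N b).card := by
  rcases B_cases hb with ⟨i, hi⟩ | hq
  · have hnq := C_notQ R hi
    have hZ := even_fix ((univ \ pt p i) \ us F b) (N b) (R.mts.inv b hb) (by
      intro v hv
      simp only [Finset.mem_sdiff, Finset.mem_univ, true_and, mem_pt, mem_us] at hv ⊢
      by_cases hN : N b v = v
      · rw [hN]; exact hv
      · have h1 : N b (N b v) ≠ N b v := by
          rw [R.mts.inv b hb]; exact fun h => hN h.symm
        refine ⟨fun h2 => h1 (R.NC i b hi (N b v) h2), (R.NF b hb (N b v) h1).1⟩)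
    have hfix : ((univ \ pt p i) \ us F b).filter (fun v => N b v = v) =
        Yb F p C Q1 X su N b ∪ (if b ∈ od F p C i then {su b} else ∅) := by
      ext v
      rw [Finset.mem_union, mem_Yb]
      simp only [Finset.mem_filter, Finset.mem_sdiff, Finset.mem_univ, true_and, mem_pt, mem_us]
      rw [N1_not hnq]
      constructor
      · rintro ⟨⟨h1, h2⟩, h3⟩
        by_cases h4 : b ∈ od F p C i ∧ v = su b
        · right; rw [if_pos h4.1]; simp [h4.2]
        · left
          refine ⟨fun h5 => h1 (C_uniq R h5 hi), h2, h3, fun h5 => hnq h5.1, ?_⟩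
          rintro ⟨j, hj, h5⟩
          have : j = i := C_uniq R (mem_od.mp hj).1 hi
          subst this
          exact h4 ⟨hj, h5⟩
      · rintro (⟨h1, h2, h3, -, -⟩ | h1)
        · exact ⟨⟨fun h5 => h1 (by rw [h5]; exact hi), h2⟩, h3⟩
        · by_cases h4 : b ∈ od F p C i
          · rw [if_pos h4, Finset.mem_singleton] at h1
            subst h1
            refine ⟨⟨?_, R.spd.uF i b h4⟩, R.Nu i b h4⟩
            rw [R.spd.up i b h4]
            intro h5
            have := congrArg (fun t => t - i) h5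
            simp at this
          · rw [if_neg h4] at h1
            exact absurd h1 (Finset.notMem_empty _)
    by_cases h4 : b ∈ od F p C i
    · rw [hfix, if_pos h4, Finset.card_union_of_disjoint, Finset.card_singleton,
        Nat.even_add_one] at hZ
      · have h5 : ¬ Even ((univ \ pt p i) \ us F b).card :=
          Nat.not_even_iff_odd.mpr (mem_od.mp h4).2
        by_contra h6
        exact h5 (hZ.mpr h6)
      · rw [Finset.disjoint_singleton_right, mem_Yb]
        rintro ⟨-, -, -, -, h5⟩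
        exact h5 ⟨i, h4, rfl⟩
    · rw [hfix, if_neg h4, Finset.union_empty] at hZ
      refine hZ.mp ?_
      by_contra h6
      exact h4 (mem_od.mpr ⟨hi, Nat.not_even_iff_odd.mp h6⟩)
  · have hnC : ∀ i, b ∉ C i := fun i hi => C_notQ R hi hq
    have hM := N1_mts (X := X) (Q1 := Q1) R.mts
    have hZ := even_fix ((univ \ us F b) \ X b) (N1 Q1 X N b) (hM.inv b hb) (by
      intro v hv
      simp only [Finset.mem_sdiff, Finset.mem_univ, true_and, mem_us] at hv ⊢
      by_cases hN : N1 Q1 X N b v = v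
      · rw [hN]; exact hv
      · obtain ⟨h1, h2, h3⟩ := N1_of_ne hN
        have h4 : N b (N b v) ≠ N b v := by
          rw [R.mts.inv b hb]; exact fun h => h2 h.symm
        rw [h1]
        exact ⟨(R.NF b hb (N b v) h4).1, fun h5 => h3 ⟨hq, Or.inr h5⟩⟩)
    have hfix : ((univ \ us F b) \ X b).filter (fun v => N1 Q1 X N b v = v) =
        Yb F p C Q1 X su N b := by
      ext v
      rw [mem_Yb]
      simp only [Finset.mem_filter, Finset.mem_sdiff, Finset.mem_univ, true_and, mem_us]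
      constructor
      · rintro ⟨⟨h1, h2⟩, h3⟩
        exact ⟨hnC _, h1, h3, fun h4 => h2 h4.2, fun ⟨j, hj, _⟩ => hnC j (mem_od.mp hj).1⟩
      · rintro ⟨h1, h2, h3, h4, -⟩
        exact ⟨⟨h2, fun h5 => h4 ⟨hq, h5⟩⟩, h3⟩
    rw [hfix] at hZ
    refine hZ.mp ?_
    have hsub : X b ⊆ univ \ us F b := by
      intro v hv
      simp only [Finset.mem_sdiff, Finset.mem_univ, true_and, mem_us]
      exact S.XF b hq v hv
    have h1 := Finset.card_sdiff_add_card_eq_card hsub
    have h2 := T.odd b (Finset.mem_union_left _ hq)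
    rw [← X_card S hq] at h2
    have h3 : Even ((univ \ us F b) \ X b).card ↔
        (Even (univ \ us F b).card ↔ Even (X b).card) := by
      rw [← h1, Nat.even_add]
      tauto
    rw [h3, ← Nat.not_odd_iff_even, ← Nat.not_odd_iff_even, h2]

lemma Yb_sub {b : ℕ} {v : V}
    (hv : v ∈ Yb F p C Q1 X su N b) : (b ∉ C (p v) ∧ b ∉ F v ∧ N b v = v) ∨
      (b ∈ Q1 ∧ N b v ≠ v ∧ N b v ∈ X b) := by
  rw [mem_Yb] at hv
  obtain ⟨h1, h2, h3, h4, -⟩ := hv
  by_cases h5 : N b v = v
  · exact Or.inl ⟨h1, h2, h5⟩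
  · right
    unfold N1 at h3
    by_cases h6 : b ∈ Q1 ∧ (v ∈ X b ∨ N b v ∈ X b)
    · rcases h6 with ⟨h7, h8 | h8⟩
      · exact absurd ⟨h7, h8⟩ h4
      · exact ⟨h7, h5, h8⟩
    · rw [if_neg h6] at h3
      exact absurd h3 h5

lemma Yb_card (R : PRE G d x h s F p C Q1 Q2 su sv e1 e2 N)
    (S : XS F p Q1 τ X) {b : ℕ} (hb : b ∈ cc C ∪ Q1) :
    (Yb F p C Q1 X su N b).card ≤ d / 1000 + 3 := by
  have h1 : Yb F p C Q1 X su N b ⊆
      (univ.filter (fun v => b ∉ C (p v) ∧ b ∉ F v ∧ N b v = v)) ∪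
      (if b ∈ Q1 then (X b).image (N b) else ∅) := by
    intro v hv
    rw [Finset.mem_union]
    rcases Yb_sub hv with h | ⟨h2, h3, h4⟩
    · left; simpa using h
    · right
      rw [if_pos h2, Finset.mem_image]
      exact ⟨N b v, h4, R.mts.inv b hb v⟩
  have h2 := R.unb b hb
  have h3 : (if b ∈ Q1 then (X b).image (N b) else ∅).card ≤ 3 := by
    by_cases hq : b ∈ Q1
    · rw [if_pos hq]; exact Finset.card_image_le.trans (X_le S hq)
    · rw [if_neg hq]; simp
  have h4 := (Finset.card_le_card h1).trans (Finset.card_union_le _ _)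
  omega

lemma Yb_num (R : PRE G d x h s F p C Q1 Q2 su sv e1 e2 N)
    (hX : ∀ v, (Q1.filter (fun b => N b v ≠ v ∧ N b v ∈ X b)).card ≤ 1) (v : V) :
    ((cc C ∪ Q1).filter (fun b => v ∈ Yb F p C Q1 X su N b)).card ≤ 70 * x + 1 := by
  have h1 : (cc C ∪ Q1).filter (fun b => v ∈ Yb F p C Q1 X su N b) ⊆
      (cc C ∪ Q1).filter (fun b => b ∉ C (p v) ∧ b ∉ F v ∧ N b v = v) ∪
      Q1.filter (fun b => N b v ≠ v ∧ N b v ∈ X b) := by
    intro b hb
    rw [Finset.mem_filter] at hb
    rw [Finset.mem_union, Finset.mem_filter, Finset.mem_filter]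
    rcases Yb_sub hb.2 with h | ⟨h2, h3, h4⟩
    · exact Or.inl ⟨hb.1, h⟩
    · exact Or.inr ⟨h2, h3, h4⟩
  have h2 := R.unv v
  have h3 := hX v
  have h4 := (Finset.card_le_card h1).trans (Finset.card_union_le _ _)
  omega

lemma cand1 (R : PRE G d x h s F p C Q1 Q2 su sv e1 e2 N)
    (S : XS F p Q1 τ X) {b : ℕ} (hb : b ∈ cc C ∪ Q1) {i j : Fin 3} (hij : i ≠ j)
    (hi : b ∉ C i) (hj : b ∉ C j) :
    1000 * s ≤ 1000 * (univ.filter (fun v => p v = i ∧ N1 Q1 X N b v ≠ v ∧
      p (N1 Q1 X N b v) = j)).card + 2 * d + 6000 := by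
  have h1 := R.cand b hb i j hij hi hj
  have h2 : univ.filter (fun v => p v = i ∧ N b v ≠ v ∧ p (N b v) = j) ⊆
      univ.filter (fun v => p v = i ∧ N1 Q1 X N b v ≠ v ∧ p (N1 Q1 X N b v) = j) ∪
      ((if b ∈ Q1 then X b else ∅) ∪ (if b ∈ Q1 then (X b).image (N b) else ∅)) := by
    intro v hv
    rw [Finset.mem_filter] at hv
    obtain ⟨-, h3, h4, h5⟩ := hv
    by_cases h6 : b ∈ Q1 ∧ (v ∈ X b ∨ N b v ∈ X b)
    · rw [Finset.mem_union, Finset.mem_union, if_pos h6.1, if_pos h6.1]
      rcases h6.2 with h7 | h7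
      · exact Or.inr (Or.inl h7)
      · exact Or.inr (Or.inr (Finset.mem_image.mpr ⟨N b v, h7, R.mts.inv b hb v⟩))
    · rw [Finset.mem_union, Finset.mem_filter]
      have h7 : N1 Q1 X N b v = N b v := by unfold N1; rw [if_neg h6]
      left
      rw [h7]
      exact ⟨Finset.mem_univ _, h3, h4, h5⟩
  have h3 : (if b ∈ Q1 then X b else ∅).card ≤ 3 := by
    by_cases hq : b ∈ Q1
    · rw [if_pos hq]; exact X_le S hq
    · rw [if_neg hq]; simp
  have h4 : (if b ∈ Q1 then (X b).image (N b) else ∅).card ≤ 3 := by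
    by_cases hq : b ∈ Q1
    · rw [if_pos hq]; exact Finset.card_image_le.trans (X_le S hq)
    · rw [if_neg hq]; simp
  have h5 := (Finset.card_le_card h2).trans (Finset.card_union_le _ _)
  have h6 := Finset.card_union_le (if b ∈ Q1 then X b else ∅)
    (if b ∈ Q1 then (X b).image (N b) else ∅)
  omega

/-- the edges inside the parts -/
def inG (G : SimpleGraph V) (p : V → Fin 3) : SimpleGraph V where
  Adj v w := G.Adj v w ∧ p w = p v
  symm := ⟨fun _ _ hh => ⟨hh.1.symm, hh.2.symm⟩⟩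
  loopless := ⟨fun v hh => G.loopless.irrefl v hh.1⟩

/-- two vertices which can be joined by a path with three edges -/
def TT (p : V → Fin 3) (C : Fin 3 → Finset ℕ) (b : ℕ) (v w : V) : Prop :=
  p v ≠ p w ∧ b ∉ C (p w)

lemma not_adj_card (H : LTH G d x y h s F p a C0) (v : V) :
    (univ.filter (fun w => ¬ G.Adj v w)).card ≤ x + 1 := by
  have h1 : univ.filter (fun w => ¬ G.Adj v w) ⊆ insert v (nn G univ v) := by
    intro w hw
    rw [Finset.mem_filter] at hw
    rw [Finset.mem_insert]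
    by_cases h : w = v
    · exact Or.inl h
    · right
      simp only [nn, Finset.mem_filter, Finset.mem_univ, true_and]
      exact ⟨h, hw.2⟩
  have h2 := Finset.card_le_card h1
  have h3 := Finset.card_insert_le v (nn G univ v)
  have h4 := H.inn v
  omega

lemma third {C : Fin 3 → Finset ℕ} (hC : ∀ i j, i ≠ j → Disjoint (C i) (C j)) (b : ℕ)
    (i : Fin 3) : ∃ j, i ≠ j ∧ b ∉ C j := by
  by_cases h1 : b ∈ C (i + 1)
  · refine ⟨i + 2, by fin_cases i <;> decide, ?_⟩
    exact Finset.disjoint_left.mp (hC (i + 1) (i + 2) (by fin_cases i <;> decide)) h1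
  · exact ⟨i + 1, by fin_cases i <;> decide, h1⟩

lemma switched (hSW : Stmt_SWITCH.{u}) (H : LTH G d x y h s F p a C0)
    (R : PRE G d x h s F p C Q1 Q2 su sv e1 e2 N) (T : TG F p C (Q1 ∪ Q2) τ)
    (S : XS F p Q1 τ X)
    (hX : ∀ v, (Q1.filter (fun b => N b v ≠ v ∧ N b v ∈ X b)).card ≤ 1) :
    ∃ M : ℕ → V → V, Mts G (cc C ∪ Q1) M ∧
      (∀ b ∈ cc C ∪ Q1, ∀ v, M b v = v ↔ N1 Q1 X N b v = v ∧ v ∉ Yb F p C Q1 X su N b) ∧
      (∀ b ∈ cc C ∪ Q1, ∀ v, M b v ≠ v → M b v ≠ N1 Q1 X N b v → p (M b v) = p v) ∧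
      ∀ v, ((cc C ∪ Q1).filter (fun b => N1 Q1 X N b v ≠ v ∧
        M b v ≠ N1 Q1 X N b v)).card ≤ h / 2000 := by
  have hP : ∀ b, ∃ P : V → V, b ∈ cc C ∪ Q1 → ((∀ v, P (P v) = v) ∧
      ∀ v, P v ≠ v ↔ v ∈ Yb F p C Q1 X su N b) := by
    intro b
    by_cases hb : b ∈ cc C ∪ Q1
    · obtain ⟨n, hn⟩ := Yb_even R T S hb
      obtain ⟨P, h1, h2⟩ := pairing n _ hn
      exact ⟨P, fun _ => ⟨h1, h2⟩⟩
    · exact ⟨id, fun h => absurd h hb⟩
  choose P hP using hP
  have hx1 := H.x1
  have hxd := H.xd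
  have hxh := H.xh
  have hs := H.s_bd
  have hcd := H.card_d
  have hdh := H.hd
  have hM := N1_mts (X := X) (Q1 := Q1) R.mts
  have hfe : ∀ b ∈ cc C ∪ Q1, univ.filter (fun v => P b v ≠ v) = Yb F p C Q1 X su N b := by
    intro b hb
    ext v
    rw [Finset.mem_filter, ← (hP b hb).2 v]
    simp
  have hpn : ∀ b ∈ cc C ∪ Q1, ∀ v, N1 Q1 X N b v ≠ v → p (N1 Q1 X N b v) ≠ p v := by
    intro b hb v hv
    obtain ⟨h1, h2, -⟩ := N1_of_ne hv
    rw [h1]
    exact (R.NF b hb v h2).2
  obtain ⟨M, m1, m2, m3, m4⟩ := hSW (V := V) G (inG G p) (cc C ∪ Q1) (N1 Q1 X N) P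
    (TT p C) (d / 1000 + 3) (70 * x + 1) (h / 2000) (d / 10 ^ 6)
    (d / 10) hM (fun v w hh => hh.1)
    (fun b hb v hv hh => hpn b hb v hv hh.2)
    (fun b hb v => (hP b hb).1 v)
    (fun b hb v hv => (mem_Yb.mp (((hP b hb).2 v).mp hv)).2.2.1)
    (fun b hb => by rw [hfe b hb]; exact Yb_card R S hb)
    (fun v => by
      refine le_trans (Finset.card_le_card ?_) (Yb_num R hX v)
      intro b hb
      rw [Finset.mem_filter] at hb ⊢
      exact ⟨hb.1, ((hP b hb.1).2 v).mp hb.2⟩)
    (by norm_num at hxh; omega)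
    (by
      have e1 : ∑ b ∈ cc C ∪ Q1, (univ.filter (fun v => P b v ≠ v)).card ≤
          Fintype.card V * (70 * x + 1) := by
        rw [Finset.sum_congr rfl fun b hb => congrArg Finset.card (hfe b hb)]
        have e2 : ∀ b ∈ cc C ∪ Q1, (Yb F p C Q1 X su N b).card =
            ∑ v : V, if v ∈ Yb F p C Q1 X su N b then 1 else 0 := by
          intro b _
          rw [← Finset.card_filter]
          congr 1
          ext v; simp
        rw [Finset.sum_congr rfl e2, Finset.sum_comm]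
        calc ∑ v : V, ∑ b ∈ cc C ∪ Q1, (if v ∈ Yb F p C Q1 X su N b then 1 else 0)
            ≤ ∑ v : V, (70 * x + 1) := by
              refine Finset.sum_le_sum fun v _ => ?_
              rw [← Finset.card_filter]
              exact Yb_num R hX v
          _ = Fintype.card V * (70 * x + 1) := by
              rw [Finset.sum_const, smul_eq_mul, Finset.card_univ]
      have e3 : Fintype.card V ≤ 2 * d := by norm_num at hxd; omega
      have e4 : Fintype.card V * (70 * x + 1) ≤ 2 * d * (71 * x) :=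
        Nat.mul_le_mul e3 (by omega)
      have e5 : h ≤ 4000 * (h / 2000) := by norm_num at hxh; omega
      have e6 : d ≤ 2 * 10 ^ 6 * (d / 10 ^ 6) := by norm_num at hxd ⊢; omega
      have e7 : 10 ^ 13 * x * d ≤ 4000 * (h / 2000) * (2 * 10 ^ 6 * (d / 10 ^ 6)) :=
        Nat.mul_le_mul (hxh.trans e5) e6
      have e8 : 4000 * (h / 2000) * (2 * 10 ^ 6 * (d / 10 ^ 6)) =
          8 * 10 ^ 9 * (h / 2000 * (d / 10 ^ 6)) := by ring
      have e9 : 10 ^ 13 * x * d = 10 ^ 13 * (x * d) := by ring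
      have e10 : 2 * d * (71 * x) = 142 * (x * d) := by ring
      rw [e8, e9] at e7
      rw [e10] at e4
      generalize x * d = z at *
      generalize h / 2000 * (d / 10 ^ 6) = z' at *
      norm_num at e7
      omega)
    (by norm_num at hxd hdh ⊢; omega)
    (by
      intro b hb v w hv hvw hT
      have hvY := mem_Yb.mp (((hP b hb).2 v).mp hv)
      have hc := cand1 R S hb hT.1 hvY.1 hT.2
      have hsub : univ.filter (fun c => p c = p v ∧ N1 Q1 X N b c ≠ c ∧
          p (N1 Q1 X N b c) = p w) ⊆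
          univ.filter (fun c => N1 Q1 X N b c ≠ c ∧ (inG G p).Adj v c ∧
            (inG G p).Adj (N1 Q1 X N b c) w) ∪
          (univ.filter (fun c => ¬ G.Adj v c) ∪
            (univ.filter (fun c => ¬ G.Adj w c)).image (N1 Q1 X N b)) := by
        intro c hc
        rw [Finset.mem_filter] at hc
        obtain ⟨-, c1, c2, c3⟩ := hc
        rw [Finset.mem_union, Finset.mem_union, Finset.mem_filter, Finset.mem_filter]
        by_cases g1 : G.Adj v c
        · by_cases g2 : G.Adj w (N1 Q1 X N b c)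
          · left
            exact ⟨Finset.mem_univ _, c2, ⟨g1, c1⟩, ⟨g2.symm, c3.symm⟩⟩
          · right; right
            rw [Finset.mem_image]
            refine ⟨N1 Q1 X N b c, ?_, hM.inv b hb c⟩
            rw [Finset.mem_filter]
            exact ⟨Finset.mem_univ _, g2⟩
        · right; left
          exact ⟨Finset.mem_univ _, g1⟩
      have k1 := (Finset.card_le_card hsub).trans (Finset.card_union_le _ _)
      have k2 := Finset.card_union_le (univ.filter (fun c => ¬ G.Adj v c))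
            ((univ.filter (fun c => ¬ G.Adj w c)).image (N1 Q1 X N b))
      have k3 := not_adj_card H v
      have k4 := not_adj_card H w
      have k5 := Finset.card_image_le (s := univ.filter (fun c => ¬ G.Adj w c))
        (f := N1 Q1 X N b)
      norm_num at hxd
      omega)
    (by
      intro b hb v hv hT
      have hvY := mem_Yb.mp (((hP b hb).2 v).mp hv)
      have hw : P b (P b v) ≠ P b v := by
        rw [(hP b hb).1]; exact fun hh => hv hh.symm
      have hwY := mem_Yb.mp (((hP b hb).2 (P b v)).mp hw)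
      have hpp : p (P b v) = p v := by
        by_contra hne
        exact hT ⟨fun hh => hne hh.symm, hwY.1⟩
      obtain ⟨j, hj, hjC⟩ := third R.dC b (p v)
      have hc := cand1 R S hb hj hvY.1 hjC
      have hsub : univ.filter (fun c => p c = p v ∧ N1 Q1 X N b c ≠ c ∧
          p (N1 Q1 X N b c) = j) ⊆
          univ.filter (fun c => N1 Q1 X N b c ≠ c ∧ (inG G p).Adj (P b v) c ∧
            TT p C b v (N1 Q1 X N b c)) ∪
          univ.filter (fun c => ¬ G.Adj (P b v) c) := by
        intro c hc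
        rw [Finset.mem_filter] at hc
        obtain ⟨-, c1, c2, c3⟩ := hc
        rw [Finset.mem_union, Finset.mem_filter, Finset.mem_filter]
        by_cases g1 : G.Adj (P b v) c
        · left
          refine ⟨Finset.mem_univ _, c2, ⟨g1, by rw [c1, hpp]⟩, ?_⟩
          unfold TT
          rw [c3]
          exact ⟨hj, hjC⟩
        · right
          exact ⟨Finset.mem_univ _, g1⟩
      have k1 := (Finset.card_le_card hsub).trans (Finset.card_union_le _ _)
      have k3 := not_adj_card H (P b v)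
      norm_num at hxd
      omega)
  refine ⟨M, m1, ?_, ?_, m4⟩
  · intro b hb v
    rw [m2 b hb v, ← (hP b hb).2 v, not_ne_iff]
  · intro b hb v h1 h2
    exact (m3 b hb v h1 h2).2

/-- special edges as an exchange -/
lemma spec_uniq (R : PRE G d x h s F p C Q1 Q2 su sv e1 e2 N) {i j : Fin 3} {b b' : ℕ}
    (hb : b ∈ od F p C i) (hb' : b' ∈ od F p C j) {v w : V}
    (h1 : (v = su b ∧ w = sv b) ∨ (v = sv b ∧ w = su b))
    (h2 : (v = su b' ∧ w = sv b') ∨ (v = sv b' ∧ w = su b')) : b = b' := by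
  have a1 := R.spd.up i b hb
  have a2 := R.spd.vp i b hb
  have a3 := R.spd.up j b' hb'
  have a4 := R.spd.vp j b' hb'
  rcases h1 with ⟨r1, r2⟩ | ⟨r1, r2⟩ <;> rcases h2 with ⟨r3, r4⟩ | ⟨r3, r4⟩
  · have hij : i = j := by rw [← a2, ← a4, ← r2, ← r4]
    subst hij
    exact R.spd.vinj i hb hb' (by rw [← r2, ← r4])
  · exfalso
    have q1 : i + 1 = j := by rw [← a1, ← a4, ← r1, ← r3]
    have q2 : i = j + 1 := by rw [← a2, ← a3, ← r2, ← r4]
    rw [q2] at q1
    revert q1
    fin_cases j <;> decide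
  · exfalso
    have q1 : i = j + 1 := by rw [← a2, ← a3, ← r1, ← r3]
    have q2 : i + 1 = j := by rw [← a1, ← a4, ← r2, ← r4]
    rw [q1] at q2
    revert q2
    fin_cases j <;> decide
  · have hij : i = j := by rw [← a2, ← a4, ← r1, ← r3]
    subst hij
    exact R.spd.vinj i hb hb' (by rw [← r1, ← r3])

/-- the matchings with the special edges -/
noncomputable def addS (F : V → Finset ℕ) (p : V → Fin 3) (C : Fin 3 → Finset ℕ) (su sv : ℕ → V)
    (M : ℕ → V → V) : ℕ → V → V := fun b v =>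
  if ∃ i, b ∈ od F p C i then (if v = su b then sv b else if v = sv b then su b else M b v)
  else M b v

lemma addS_not {M : ℕ → V → V} {b : ℕ} (hb : ¬ ∃ i, b ∈ od F p C i) (v : V) :
    addS F p C su sv M b v = M b v := by
  unfold addS; rw [if_neg hb]

lemma addS_other {M : ℕ → V → V} {b : ℕ} {v : V} (h1 : v ≠ su b) (h2 : v ≠ sv b) :
    addS F p C su sv M b v = M b v := by
  unfold addS
  by_cases hb : ∃ i, b ∈ od F p C i
  · rw [if_pos hb, if_neg h1, if_neg h2]
  · rw [if_neg hb]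

lemma addS_su {M : ℕ → V → V} {b : ℕ} (hb : ∃ i, b ∈ od F p C i) :
    addS F p C su sv M b (su b) = sv b := by
  unfold addS; rw [if_pos hb, if_pos rfl]

lemma addS_sv {M : ℕ → V → V} {b : ℕ} (hb : ∃ i, b ∈ od F p C i) (hne : sv b ≠ su b) :
    addS F p C su sv M b (sv b) = su b := by
  unfold addS; rw [if_pos hb, if_neg hne, if_pos rfl]

/-- an edge of the new matchings is an old edge or a special edge -/
lemma addS_cases {M : ℕ → V → V} {b : ℕ} {v : V} (hv : addS F p C su sv M b v ≠ v) :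
    (M b v ≠ v ∧ addS F p C su sv M b v = M b v) ∨
    ∃ i, b ∈ od F p C i ∧ ((v = su b ∧ addS F p C su sv M b v = sv b) ∨
      (v = sv b ∧ addS F p C su sv M b v = su b)) := by
  by_cases hb : ∃ i, b ∈ od F p C i
  · by_cases h1 : v = su b
    · right
      obtain ⟨i, hi⟩ := hb
      refine ⟨i, hi, Or.inl ⟨h1, ?_⟩⟩
      rw [h1, addS_su ⟨i, hi⟩]
    · by_cases h2 : v = sv b
      · right
        obtain ⟨i, hi⟩ := hb
        refine ⟨i, hi, Or.inr ⟨h2, ?_⟩⟩
        rw [h2, addS_sv ⟨i, hi⟩ (by rw [← h2]; exact h1)]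
      · left
        rw [addS_other h1 h2] at hv ⊢
        exact ⟨hv, rfl⟩
  · left
    rw [addS_not hb] at hv ⊢
    exact ⟨hv, rfl⟩

end main

end str

theorem stmt_STR (hSW : Stmt_SWITCH.{u}) : Stmt_STR.{u} := by
  intro V _ G d x y h s F p a C0 C Q1 Q2 su sv e1 e2 N τ X H R T S hX
  obtain ⟨M0, m1, m2, m3, m4⟩ := switched hSW H R T S hX
  have hx1 := H.x1
  have hxh := H.xh
  -- facts on the special edges
  have odB : ∀ i, ∀ b ∈ od F p C i, b ∈ cc C ∪ Q1 := fun i b hb => C_B (mem_od.mp hb).1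
  have hne : ∀ i, ∀ b ∈ od F p C i, sv b ≠ su b := fun i b hb hh =>
    G.loopless.irrefl (su b) (by have := R.spd.adj i b hb; rwa [hh] at this)
  have suM : ∀ i, ∀ b ∈ od F p C i, M0 b (su b) = su b := by
    intro i b hb
    rw [m2 b (odB i b hb), N1_not (C_notQ R (mem_od.mp hb).1)]
    refine ⟨R.Nu i b hb, fun hh => ?_⟩
    exact (mem_Yb.mp hh).2.2.2.2 ⟨i, hb, rfl⟩
  have svM : ∀ i, ∀ b ∈ od F p C i, M0 b (sv b) = sv b := by
    intro i b hb
    have hC := (mem_od.mp hb).1
    have hp := R.spd.vp i b hb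
    rw [m2 b (odB i b hb), N1_not (C_notQ R hC)]
    refine ⟨R.NC i b hC (sv b) hp, fun hh => ?_⟩
    exact (mem_Yb.mp hh).1 (by rw [hp]; exact hC)
  have hS : ∀ i, ∀ b ∈ od F p C i, isS F p C su sv (su b) (sv b) := fun i b hb =>
    ⟨i, b, hb, Or.inl ⟨rfl, rfl⟩⟩
  have hpS : ∀ {v w : V}, isS F p C su sv v w → p v ≠ p w := by
    rintro v w ⟨i, b, hb, ⟨r1, r2⟩ | ⟨r1, r2⟩⟩
    · rw [← r1, ← r2, R.spd.up i b hb, R.spd.vp i b hb]
      fin_cases i <;> decide
    · rw [← r1, ← r2, R.spd.up i b hb, R.spd.vp i b hb]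
      fin_cases i <;> decide
  have hpA : ∀ {v w : V}, isA h e1 e2 v w → p v ≠ p w := by
    have key : ∀ k, k < 4 * h → p (e1 k) ≠ p (e2 k) := by
      intro k hk
      rw [R.spd.p1 k hk]
      by_cases h2 : k < 2 * h
      · rw [R.spd.p2 k h2]; decide
      · rw [R.spd.p3 k (by omega) hk]; decide
    rintro v w ⟨k, hk, ⟨r1, r2⟩ | ⟨r1, r2⟩⟩
    · rw [← r1, ← r2]; exact key k hk
    · rw [← r1, ← r2]; exact (key k hk).symm
  -- edges of M0 are not special and not adjusters
  have old : ∀ b ∈ cc C ∪ Q1, ∀ v, M0 b v ≠ v → ¬ isS F p C su sv v (M0 b v) ∧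
      ¬ isA h e1 e2 v (M0 b v) := by
    intro b hb v hv
    by_cases h1 : M0 b v = N1 Q1 X N b v
    · have h2 : N1 Q1 X N b v ≠ v := by rw [← h1]; exact hv
      obtain ⟨h3, h4, -⟩ := N1_of_ne h2
      rw [h1, h3]
      exact R.NS b hb v h4
    · have h2 := m3 b hb v hv h1
      exact ⟨fun hh => hpS hh h2.symm, fun hh => hpA hh h2.symm⟩
  have casesM := fun (b : ℕ) (v : V) (hv : addS F p C su sv M0 b v ≠ v) =>
    addS_cases (F := F) (p := p) (C := C) (su := su) (sv := sv) hv
  refine ⟨addS F p C su sv M0, ?_, ?_, ?_, ?_, ?_, ?_⟩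
  · -- Mts
    constructor
    · intro b hb v
      by_cases hod : ∃ i, b ∈ od F p C i
      · by_cases h1 : v = su b
        · obtain ⟨i, hi⟩ := hod
          rw [h1, addS_su ⟨i, hi⟩, addS_sv ⟨i, hi⟩ (hne i b hi)]
        · by_cases h2 : v = sv b
          · obtain ⟨i, hi⟩ := hod
            rw [h2, addS_sv ⟨i, hi⟩ (hne i b hi), addS_su ⟨i, hi⟩]
          · obtain ⟨i, hi⟩ := hod
            rw [addS_other h1 h2]
            have h3 : M0 b v ≠ su b := fun hh => h1 (by
              rw [← m1.inv b hb v, hh, suM i b hi])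
            have h4 : M0 b v ≠ sv b := fun hh => h2 (by
              rw [← m1.inv b hb v, hh, svM i b hi])
            rw [addS_other h3 h4, m1.inv b hb v]
      · rw [addS_not hod, addS_not hod, m1.inv b hb v]
    · intro b hb v hv
      rcases casesM b v hv with ⟨h1, h2⟩ | ⟨i, hi, ⟨h1, h2⟩ | ⟨h1, h2⟩⟩
      · rw [h2]; exact m1.adj b hb v h1
      · rw [h2, h1]; exact R.spd.adj i b hi
      · rw [h2, h1]; exact (R.spd.adj i b hi).symm
    · intro b hb b' hb' hbb v hv heq
      have hv' : addS F p C su sv M0 b' v ≠ v := by rw [← heq]; exact hv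
      rcases casesM b v hv with ⟨h1, h2⟩ | ⟨i, hi, h1⟩
      · rcases casesM b' v hv' with ⟨h3, h4⟩ | ⟨j, hj, h3⟩
        · exact m1.dis b hb b' hb' hbb v h1 (by rw [← h2, ← h4, heq])
        · refine (old b hb v h1).1 ⟨j, b', hj, ?_⟩
          rw [← h2, heq]
          rcases h3 with ⟨r1, r2⟩ | ⟨r1, r2⟩
          · exact Or.inl ⟨r1.symm, r2.symm⟩
          · exact Or.inr ⟨r2.symm, r1.symm⟩
      · rcases casesM b' v hv' with ⟨h3, h4⟩ | ⟨j, hj, h3⟩
        · refine (old b' hb' v h3).1 ⟨i, b, hi, ?_⟩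
          rw [← h4, ← heq]
          rcases h1 with ⟨r1, r2⟩ | ⟨r1, r2⟩
          · exact Or.inl ⟨r1.symm, r2.symm⟩
          · exact Or.inr ⟨r2.symm, r1.symm⟩
        · rw [← heq] at h3
          exact hbb (spec_uniq R hi hj h1 h3)
  · -- CV
    have inner : ∀ i, ∀ b ∈ C i, ∀ v, p v = i → addS F p C su sv M0 b v ≠ v →
        b ∈ od F p C i ∧ v = sv b ∧ addS F p C su sv M0 b v = su b := by
      intro i b hb v hv hM
      have hM0 : M0 b v = v := by
        rw [m2 b (C_B hb), N1_not (C_notQ R hb)]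
        refine ⟨R.NC i b hb v hv, fun hh => ?_⟩
        exact (mem_Yb.mp hh).1 (by rw [hv]; exact hb)
      rcases casesM b v hM with ⟨h1, h2⟩ | ⟨j, hj, ⟨h1, h2⟩ | ⟨h1, h2⟩⟩
      · exact absurd hM0 h1
      · exfalso
        have hji : j = i := C_uniq R (mem_od.mp hj).1 hb
        have := R.spd.up j b hj
        rw [← h1, hv, hji] at this
        revert this
        fin_cases i <;> decide
      · have hji : j = i := C_uniq R (mem_od.mp hj).1 hb
        subst hji
        exact ⟨hj, h1, h2⟩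
    constructor
    · intro i b hb v hv
      have hBb : b ∈ cc C ∪ Q1 := C_B hb
      have hbv : b ∉ C (p v) := fun hh => hv (C_uniq R hh hb)
      by_cases h1 : ∃ j, b ∈ od F p C j ∧ v = su b
      · obtain ⟨j, hj, h2⟩ := h1
        subst h2
        rw [addS_su ⟨j, hj⟩]
        exact ⟨fun hh => absurd hh (hne j b hj), fun hh => absurd hh (R.spd.uF j b hj)⟩
      · have h3 : addS F p C su sv M0 b v = M0 b v := by
          by_cases hod : ∃ j, b ∈ od F p C j
          · refine addS_other (fun hh => ?_) (fun hh => ?_)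
            · obtain ⟨j, hj⟩ := hod
              exact h1 ⟨j, hj, hh⟩
            · obtain ⟨j, hj⟩ := hod
              have hji : j = i := C_uniq R (mem_od.mp hj).1 hb
              exact hv (by rw [hh, R.spd.vp j b hj, hji])
          · exact addS_not hod v
        rw [h3, m2 b hBb, N1_not (C_notQ R hb)]
        constructor
        · rintro ⟨h4, h5⟩
          by_contra h6
          exact h5 (mem_Yb.mpr ⟨hbv, h6, by rw [N1_not (C_notQ R hb)]; exact h4,
            fun hh => C_notQ R hb hh.1, h1⟩)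
        · intro h4
          refine ⟨?_, fun hh => (mem_Yb.mp hh).2.1 h4⟩
          by_contra h5
          exact (R.NF b hBb v h5).1 h4
    · intro i b hb v hv hM
      obtain ⟨h1, h2, h3⟩ := inner i b hb v hv hM
      rw [h3, R.spd.up i b h1]
      fin_cases i <;> decide
    · intro i b hb v w hv hw hMv hMw
      rw [(inner i b hb v hv hMv).2.1, (inner i b hb w hw hMw).2.1]
    · intro i b hb b' hb' v hv hMv hMv'
      obtain ⟨h1, h2, -⟩ := inner i b hb v hv hMv
      obtain ⟨h3, h4, -⟩ := inner i b' hb' v hv hMv'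
      exact R.spd.vinj i h1 h3 (by rw [← h2, ← h4])
  · -- covQ
    intro b hb v
    have hnC : ∀ i, b ∉ C i := fun i hi => C_notQ R hi hb
    have hod : ¬ ∃ i, b ∈ od F p C i := fun ⟨i, hi⟩ => hnC i (mem_od.mp hi).1
    rw [addS_not hod, m2 b (Q_B hb)]
    constructor
    · rintro ⟨h1, h2⟩
      by_contra h3
      rw [not_or] at h3
      exact h2 (mem_Yb.mpr ⟨hnC _, h3.1, h1, fun hh => h3.2 hh.2, fun ⟨i, hi, _⟩ => hod ⟨i, hi⟩⟩)
    · rintro (h1 | h1)
      · refine ⟨?_, fun hh => (mem_Yb.mp hh).2.1 h1⟩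
        by_contra h2
        obtain ⟨h3, h4, -⟩ := N1_of_ne h2
        exact (R.NF b (Q_B hb) v h4).1 h1
      · refine ⟨?_, fun hh => (mem_Yb.mp hh).2.2.2.1 ⟨hb, h1⟩⟩
        unfold N1
        rw [if_pos ⟨hb, Or.inl h1⟩]
  · -- nA
    intro b hb v hv
    rcases casesM b v hv with ⟨h1, h2⟩ | ⟨i, hi, ⟨h1, h2⟩ | ⟨h1, h2⟩⟩
    · rw [h2]; exact (old b hb v h1).2
    · rw [h2, h1]
      rintro ⟨k, hk, hh⟩
      have := R.spd.es k hk i b hi
      tauto
    · rw [h2, h1]
      rintro ⟨k, hk, hh⟩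
      have := R.spd.es k hk i b hi
      tauto
  · -- lam
    intro v
    have hsub : univ.filter (fun w => G.Adj v w ∧ p w ≠ p v ∧ ¬ isA h e1 e2 v w ∧
        ∀ b ∈ cc C ∪ Q1, addS F p C su sv M0 b v ≠ w) ⊆
        univ.filter (fun w => G.Adj v w ∧ p w ≠ p v ∧ ¬ isS F p C su sv v w ∧
          ¬ isA h e1 e2 v w ∧ ∀ b ∈ cc C ∪ Q1, N b v ≠ w) ∪
        ((Q1.filter (fun b => v ∈ X b)).image (fun b => N b v) ∪
        ((Q1.filter (fun b => N b v ≠ v ∧ N b v ∈ X b)).image (fun b => N b v) ∪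
        ((cc C ∪ Q1).filter (fun b => N1 Q1 X N b v ≠ v ∧
          M0 b v ≠ N1 Q1 X N b v)).image (fun b => N b v))) := by
      intro w hw
      rw [Finset.mem_filter] at hw
      obtain ⟨-, w1, w2, w3, w4⟩ := hw
      have w5 : ¬ isS F p C su sv v w := by
        rintro ⟨i, b, hb, ⟨r1, r2⟩ | ⟨r1, r2⟩⟩
        · exact w4 b (odB i b hb) (by rw [← r1, addS_su ⟨i, hb⟩, r2])
        · exact w4 b (odB i b hb) (by rw [← r2, addS_sv ⟨i, hb⟩ (hne i b hb), r1])
      rw [Finset.mem_union, Finset.mem_union, Finset.mem_union, Finset.mem_filter,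
        Finset.mem_image, Finset.mem_image, Finset.mem_image]
      by_cases w6 : ∀ b ∈ cc C ∪ Q1, N b v ≠ w
      · exact Or.inl ⟨Finset.mem_univ _, w1, w2, w5, w3, w6⟩
      · push Not at w6
        obtain ⟨b, hb, hbw⟩ := w6
        have hNv : N b v ≠ v := by
          rw [hbw]; exact fun hh => G.loopless.irrefl v (by rw [hh] at w1; exact w1)
        right
        by_cases g1 : b ∈ Q1 ∧ v ∈ X b
        · left
          exact ⟨b, Finset.mem_filter.mpr g1, hbw⟩
        · right
          by_cases g2 : b ∈ Q1 ∧ N b v ∈ X b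
          · left
            exact ⟨b, Finset.mem_filter.mpr ⟨g2.1, hNv, g2.2⟩, hbw⟩
          · right
            have g3 : N1 Q1 X N b v = N b v := by
              unfold N1
              rw [if_neg]
              rintro ⟨g4, g5 | g5⟩
              · exact g1 ⟨g4, g5⟩
              · exact g2 ⟨g4, g5⟩
            refine ⟨b, Finset.mem_filter.mpr ⟨hb, by rw [g3]; exact hNv, ?_⟩, hbw⟩
            intro g6
            refine w4 b hb ?_
            rw [g3, hbw] at g6
            by_cases hod : ∃ i, b ∈ od F p C i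
            · obtain ⟨i, hi⟩ := hod
              have hvw : M0 b v ≠ v := by rw [g6, ← hbw]; exact hNv
              rw [addS_other (fun hh => hvw (by rw [hh]; exact suM i b hi))
                (fun hh => hvw (by rw [hh]; exact svM i b hi)), g6]
            · rw [addS_not hod, g6]
    have k1 := (Finset.card_le_card hsub).trans (Finset.card_union_le _ _)
    have k2 := Finset.card_union_le ((Q1.filter (fun b => v ∈ X b)).image (fun b => N b v))
      ((Q1.filter (fun b => N b v ≠ v ∧ N b v ∈ X b)).image (fun b => N b v) ∪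
        ((cc C ∪ Q1).filter (fun b => N1 Q1 X N b v ≠ v ∧
          M0 b v ≠ N1 Q1 X N b v)).image (fun b => N b v))
    have k3 := Finset.card_union_le
      ((Q1.filter (fun b => N b v ≠ v ∧ N b v ∈ X b)).image (fun b => N b v))
        (((cc C ∪ Q1).filter (fun b => N1 Q1 X N b v ≠ v ∧
          M0 b v ≠ N1 Q1 X N b v)).image (fun b => N b v))
    have k4 : ((Q1.filter (fun b => v ∈ X b)).image (fun b => N b v)).card ≤ 1 := by
      refine Finset.card_image_le.trans (Finset.card_le_one.mpr ?_)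
      intro b hb b' hb'
      rw [Finset.mem_filter] at hb hb'
      by_contra hbb
      exact Finset.disjoint_left.mp (S.dis b hb.1 b' hb'.1 hbb) hb.2 hb'.2
    have k5 : ((Q1.filter (fun b => N b v ≠ v ∧ N b v ∈ X b)).image
        (fun b => N b v)).card ≤ 1 := Finset.card_image_le.trans (hX v)
    have k6 : (((cc C ∪ Q1).filter (fun b => N1 Q1 X N b v ≠ v ∧
          M0 b v ≠ N1 Q1 X N b v)).image (fun b => N b v)).card ≤ h / 2000 :=
      Finset.card_image_le.trans (m4 v)
    have k7 := R.lam v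
    rw [show (10 : ℕ) ^ 6 = 1000000 by norm_num] at k7
    norm_num at hxh
    omega
  · -- inn
    intro v
    have hsub : (cc C ∪ Q1).filter (fun b => addS F p C su sv M0 b v ≠ v ∧
        p (addS F p C su sv M0 b v) = p v) ⊆
        (cc C ∪ Q1).filter (fun b => N1 Q1 X N b v ≠ v ∧ M0 b v ≠ N1 Q1 X N b v) ∪
        (cc C ∪ Q1).filter (fun b => v ∈ Yb F p C Q1 X su N b) := by
      intro b hb
      rw [Finset.mem_filter] at hb
      obtain ⟨hb, b1, b2⟩ := hb
      rw [Finset.mem_union, Finset.mem_filter, Finset.mem_filter]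
      rcases casesM b v b1 with ⟨h1, h2⟩ | ⟨i, hi, h1⟩
      · rw [h2] at b2
        by_cases g1 : N1 Q1 X N b v = v
        · right
          refine ⟨hb, ?_⟩
          by_contra g2
          exact h1 ((m2 b hb v).mpr ⟨g1, g2⟩)
        · left
          refine ⟨hb, g1, fun g2 => ?_⟩
          obtain ⟨g3, g4, -⟩ := N1_of_ne g1
          rw [g2, g3] at b2
          exact (R.NF b hb v g4).2 b2
      · exfalso
        have : isS F p C su sv v (addS F p C su sv M0 b v) := by
          refine ⟨i, b, hi, ?_⟩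
          rcases h1 with ⟨r1, r2⟩ | ⟨r1, r2⟩
          · exact Or.inl ⟨r1.symm, r2.symm⟩
          · exact Or.inr ⟨r2.symm, r1.symm⟩
        exact hpS this b2.symm
    have k1 := (Finset.card_le_card hsub).trans (Finset.card_union_le _ _)
    have k2 := m4 v
    have k3 := Yb_num (F := F) (p := p) (C := C) (su := su) R hX v
    norm_num at hxh
    omega

end Pool.Agent.Work.MP_db9399_lt.helper99
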