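import Mathlib
import Pool.Agent.Work.MP_db9399_lt.Interface

/-!
# MP_db9399, THEOREM LT, block SWITCH (helper99)
-/

set_option autoImplicit false

namespace Pool.Agent.Work.MP_db9399_lt.helper99

open Finset Classical
open Pool.Agent.Work.MP_db9399_all (nb)
open Pool.Agent.Work.MP_db9399_nc (nn PEC Mts)

universe u

set_option linter.unusedSectionVars false

section base
variable {V : Type u} [Fintype V]

/-- the touched vertices of the round `b` -/
noncomputable def tch (N M : ℕ → V → V) (b : ℕ) : Finset V :=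
  univ.filter (fun v => N b v ≠ v ∧ M b v ≠ N b v)

/-- the number of rounds where `v` is touched -/
noncomputable def load (E : Finset ℕ) (N M : ℕ → V → V) (v : V) : ℕ :=
  (E.filter (fun b => N b v ≠ v ∧ M b v ≠ N b v)).card

/-- the core invariants; `D b` is the set of vertices which still have to be covered -/
structure Co (G res : SimpleGraph V) (E : Finset ℕ) (N P : ℕ → V → V) (L : ℕ)
    (M : ℕ → V → V) (D : ℕ → Finset V) : Prop where
  mts : Mts G E M
  unc : ∀ b ∈ E, ∀ v, M b v = v ↔ (N b v = v ∧ P b v = v) ∨ v ∈ D b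
  rs : ∀ b ∈ E, ∀ v, M b v ≠ v → M b v ≠ N b v → res.Adj v (M b v)
  ld : ∀ v, load E N M v ≤ L
  nd : ∀ b ∈ E, ∀ v ∈ D b, ¬ (N b v = v ∧ P b v = v)

lemma upd_mts {G : SimpleGraph V} {E : Finset ℕ} {M : ℕ → V → V} (hM : Mts G E M) {b : ℕ}
    (f : V → V) (h1 : ∀ x, f (f x) = x) (h2 : ∀ x, f x ≠ x → G.Adj x (f x))
    (h3 : ∀ b' ∈ E, b' ≠ b → ∀ x, f x ≠ x → f x ≠ M b' x) :
    Mts G E (Function.update M b f) := by
  constructor
  · intro b' hb' v
    by_cases h : b' = b
    · subst h; simp [h1]
    · simp [Function.update_of_ne h, hM.inv b' hb' v]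
  · intro b' hb' v
    by_cases h : b' = b
    · subst h; simpa using h2 v
    · simpa [Function.update_of_ne h] using hM.adj b' hb' v
  · intro b1 hb1 b2 hb2 hne v
    by_cases h : b1 = b
    · subst h
      simpa [Function.update_of_ne (Ne.symm hne)] using h3 b2 hb2 (Ne.symm hne) v
    · by_cases h' : b2 = b
      · subst h'
        simp only [Function.update_of_ne h, Function.update_self]
        intro hv he
        exact h3 b1 hb1 h v (by rw [← he]; exact hv) he.symm
      · simpa [Function.update_of_ne h, Function.update_of_ne h'] using hM.dis b1 hb1 b2 hb2 hne v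

lemma upd_co {G res : SimpleGraph V} {E : Finset ℕ} {N P : ℕ → V → V} {L : ℕ}
    {M : ℕ → V → V} {D : ℕ → Finset V} (hC : Co G res E N P L M D) {b : ℕ}
    (f : V → V) (S : Finset V) (h1 : ∀ x, f (f x) = x) (h2 : ∀ x, f x ≠ x → G.Adj x (f x))
    (h3 : ∀ b' ∈ E, b' ≠ b → ∀ x, f x ≠ x → f x ≠ M b' x)
    (h4 : ∀ x, f x = x ↔ (N b x = x ∧ P b x = x) ∨ x ∈ S)
    (h5 : ∀ x, f x ≠ x → f x ≠ N b x → res.Adj x (f x))
    (h6 : ∀ x, N b x ≠ x → f x ≠ N b x → M b x ≠ N b x ∨ load E N M x < L)
    (h7 : ∀ v ∈ S, ¬ (N b v = v ∧ P b v = v)) :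
    Co G res E N P L (Function.update M b f) (Function.update D b S) := by
  refine ⟨upd_mts hC.mts f h1 h2 h3, ?_, ?_, ?_, ?_⟩
  · intro b' hb' v
    by_cases h : b' = b
    · subst h; simpa using h4 v
    · simpa [Function.update_of_ne h] using hC.unc b' hb' v
  · intro b' hb' v
    by_cases h : b' = b
    · subst h; simpa using h5 v
    · simpa [Function.update_of_ne h] using hC.rs b' hb' v
  · intro v
    by_cases h : N b v ≠ v ∧ f v ≠ N b v ∧ M b v = N b v
    · have hl : load E N M v < L := by
        rcases h6 v h.1 h.2.1 with h' | h'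
        · exact absurd h.2.2 h'
        · exact h'
      have hsub : E.filter (fun b' => N b' v ≠ v ∧ Function.update M b f b' v ≠ N b' v) ⊆
          insert b (E.filter (fun b' => N b' v ≠ v ∧ M b' v ≠ N b' v)) := by
        intro b' hb'
        rw [mem_filter] at hb'
        rw [mem_insert, mem_filter]
        by_cases hbb : b' = b
        · exact Or.inl hbb
        · right
          simpa [Function.update_of_ne hbb] using hb'
      have := card_le_card hsub
      have h2' := card_insert_le b (E.filter (fun b' => N b' v ≠ v ∧ M b' v ≠ N b' v))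
      unfold load at hl ⊢
      omega
    · have hsub : E.filter (fun b' => N b' v ≠ v ∧ Function.update M b f b' v ≠ N b' v) ⊆
          (E.filter (fun b' => N b' v ≠ v ∧ M b' v ≠ N b' v)) := by
        intro b' hb'
        rw [mem_filter] at hb' ⊢
        by_cases hbb : b' = b
        · subst hbb
          simp only [Function.update_self] at hb'
          refine ⟨hb'.1, hb'.2.1, fun h' => h ⟨hb'.2.1, hb'.2.2, h'⟩⟩
        · simpa [Function.update_of_ne hbb] using hb'
      exact (card_le_card hsub).trans (hC.ld v)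
  · intro b' hb' v
    by_cases h : b' = b
    · subst h; simpa using h7 v
    · simpa [Function.update_of_ne h] using hC.nd b' hb' v

/-- first operation: `w` gets a partner `c`, the old partner of `c` becomes uncovered -/
lemma prim1 {G res : SimpleGraph V} {E : Finset ℕ} {N P : ℕ → V → V} {L : ℕ}
    {M : ℕ → V → V} {D : ℕ → Finset V} (hC : Co G res E N P L M D) (hle : res ≤ G)
    (hN : Mts G E N)
    {b : ℕ} (hb : b ∈ E) {w c : V} (hw : w ∈ D b) (hc : N b c ≠ c) (hMc : M b c = N b c)
    (hwc : res.Adj w c) (hun : ∀ b' ∈ E, M b' w ≠ c) (hlc : load E N M c < L)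
    (hlc' : load E N M (N b c) < L) :
    ∃ M' : ℕ → V → V, Co G res E N P L M' (Function.update D b
        (insert (N b c) ((D b).erase w))) ∧ (∀ b', b' ≠ b → M' b' = M b') ∧
      tch N M' b ⊆ tch N M b ∪ {c, N b c} := by
  have hMw : M b w = w := (hC.unc b hb w).2 (Or.inr hw)
  have hinv := hC.mts.inv b hb
  have hMc' : M b (N b c) = c := by rw [← hMc]; exact hinv c
  have hwc1 : w ≠ c := hwc.ne
  have hwc2 : w ≠ N b c := by
    intro h
    rw [← h, hMw] at hMc'
    exact hwc1 hMc'
  have hNinv := hN.inv b hb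
  have hNN : N b (N b c) = c := hNinv c
  set f : V → V := fun x => if x = w then c else if x = c then w else if x = N b c then N b c
    else M b x with hf
  have fw : f w = c := by simp [hf]
  have fc : f c = w := by simp [hf, hwc1.symm]
  have fc' : f (N b c) = N b c := by simp [hf, hwc2.symm, hc]
  have fo : ∀ x, x ≠ w → x ≠ c → x ≠ N b c → f x = M b x := by
    intro x h1 h2 h3
    simp [hf, h1, h2, h3]
  have cases4 : ∀ (Q : V → Prop), Q w → Q c → Q (N b c) →
      (∀ x, x ≠ w → x ≠ c → x ≠ N b c → Q x) → ∀ x, Q x := by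
    intro Q h1 h2 h3 h4 x
    by_cases a1 : x = w
    · rw [a1]; exact h1
    · by_cases a2 : x = c
      · rw [a2]; exact h2
      · by_cases a3 : x = N b c
        · rw [a3]; exact h3
        · exact h4 x a1 a2 a3
  refine ⟨Function.update M b f, upd_co hC f _ ?_ ?_ ?_ ?_ ?_ ?_ ?_, ?_, ?_⟩
  · apply cases4
    · rw [fw, fc]
    · rw [fc, fw]
    · rw [fc', fc']
    · intro x h1 h2 h3
      rw [fo x h1 h2 h3, fo, hinv x]
      · intro h; apply h1; rw [← hinv x, h, hMw]
      · intro h; apply h3; rw [← hinv x, h, hMc]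
      · intro h; apply h2; rw [← hinv x, h, hMc']
  · apply cases4
    · rw [fw]; intro _; exact hle hwc
    · rw [fc]; intro _; exact (hle hwc).symm
    · rw [fc']; intro h; exact absurd rfl h
    · intro x h1 h2 h3
      rw [fo x h1 h2 h3]; exact hC.mts.adj b hb x
  · intro b' hb' hne
    apply cases4
    · rw [fw]; intro _ h; exact hun b' hb' h.symm
    · rw [fc]; intro _ h
      apply hun b' hb'
      rw [h]; exact hC.mts.inv b' hb' c
    · rw [fc']; intro h; exact absurd rfl h
    · intro x h1 h2 h3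
      rw [fo x h1 h2 h3]
      exact hC.mts.dis b hb b' hb' (Ne.symm hne) x
  · apply cases4
    · rw [fw]
      constructor
      · intro h; exact absurd h.symm hwc1
      · rintro (h | h)
        · exact absurd h (hC.nd b hb w hw)
        · rw [mem_insert, mem_erase] at h
          rcases h with h | h
          · exact absurd h hwc2
          · exact absurd rfl h.1
    · rw [fc]
      constructor
      · intro h; exact absurd h hwc1
      · rintro (h | h)
        · exact absurd h.1 hc
        · rw [mem_insert, mem_erase] at h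
          rcases h with h | h
          · exact absurd h.symm hc
          · have := (hC.unc b hb c).2 (Or.inr h.2)
            rw [hMc] at this
            exact absurd this hc
    · rw [fc']
      simp
    · intro x h1 h2 h3
      rw [fo x h1 h2 h3, hC.unc b hb x, mem_insert, mem_erase]
      constructor
      · rintro (h | h)
        · exact Or.inl h
        · exact Or.inr (Or.inr ⟨h1, h⟩)
      · rintro (h | h | h)
        · exact Or.inl h
        · exact absurd h h3
        · exact Or.inr h.2
  · apply cases4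
    · rw [fw]; intro _ _; exact hwc
    · rw [fc]; intro _ _; exact hwc.symm
    · rw [fc']; intro h; exact absurd rfl h
    · intro x h1 h2 h3
      rw [fo x h1 h2 h3]
      exact hC.rs b hb x
  · apply cases4
    · intro h1 _; left; rw [hMw]; exact Ne.symm h1
    · intro _ _; right; exact hlc
    · intro _ _; right; exact hlc'
    · intro x h1 h2 h3
      rw [fo x h1 h2 h3]
      intro _ h; exact Or.inl h
  · intro v hv
    rw [mem_insert, mem_erase] at hv
    rcases hv with hv | hv
    · rw [hv, hNN]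
      intro h; exact hc h.1.symm
    · exact hC.nd b hb v hv.2
  · intro b' hne
    exact Function.update_of_ne hne _ _
  · intro x hx
    simp only [tch, mem_filter, mem_univ, true_and, Function.update_self, mem_union, mem_insert,
      mem_singleton] at hx ⊢
    by_cases a2 : x = c
    · exact Or.inr (Or.inl a2)
    · by_cases a3 : x = N b c
      · exact Or.inr (Or.inr a3)
      · left
        refine ⟨hx.1, ?_⟩
        by_cases a1 : x = w
        · rw [a1, hMw]
          rw [a1] at hx
          exact Ne.symm hx.1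
        · rw [← fo x a1 a2 a3]; exact hx.2

/-- second operation: the edge `p q` is added -/
lemma prim2 {G res : SimpleGraph V} {E : Finset ℕ} {N P : ℕ → V → V} {L : ℕ}
    {M : ℕ → V → V} {D : ℕ → Finset V} (hC : Co G res E N P L M D) (hle : res ≤ G)
    {b : ℕ} (hb : b ∈ E) {p q : V} (hp : p ∈ D b) (hq : q ∈ D b)
    (hpq : res.Adj p q) (hun : ∀ b' ∈ E, M b' p ≠ q) :
    ∃ M' : ℕ → V → V, Co G res E N P L M' (Function.update D b
        (((D b).erase p).erase q)) ∧ (∀ b', b' ≠ b → M' b' = M b') ∧
      tch N M' b ⊆ tch N M b := by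
  have hMp : M b p = p := (hC.unc b hb p).2 (Or.inr hp)
  have hMq : M b q = q := (hC.unc b hb q).2 (Or.inr hq)
  have hinv := hC.mts.inv b hb
  have hne : p ≠ q := hpq.ne
  set f : V → V := fun x => if x = p then q else if x = q then p else M b x with hf
  have fp : f p = q := by simp [hf]
  have fq : f q = p := by simp [hf, hne.symm]
  have fo : ∀ x, x ≠ p → x ≠ q → f x = M b x := by
    intro x h1 h2
    simp [hf, h1, h2]
  have cases3 : ∀ (Q : V → Prop), Q p → Q q →
      (∀ x, x ≠ p → x ≠ q → Q x) → ∀ x, Q x := by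
    intro Q h1 h2 h4 x
    by_cases a1 : x = p
    · rw [a1]; exact h1
    · by_cases a2 : x = q
      · rw [a2]; exact h2
      · exact h4 x a1 a2
  refine ⟨Function.update M b f, upd_co hC f _ ?_ ?_ ?_ ?_ ?_ ?_ ?_, ?_, ?_⟩
  · apply cases3
    · rw [fp, fq]
    · rw [fq, fp]
    · intro x h1 h2
      rw [fo x h1 h2, fo, hinv x]
      · intro h; apply h1; rw [← hinv x, h, hMp]
      · intro h; apply h2; rw [← hinv x, h, hMq]
  · apply cases3
    · rw [fp]; intro _; exact hle hpq
    · rw [fq]; intro _; exact (hle hpq).symm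
    · intro x h1 h2
      rw [fo x h1 h2]; exact hC.mts.adj b hb x
  · intro b' hb' hne'
    apply cases3
    · rw [fp]; intro _ h; exact hun b' hb' h.symm
    · rw [fq]; intro _ h
      apply hun b' hb'
      rw [h]; exact hC.mts.inv b' hb' q
    · intro x h1 h2
      rw [fo x h1 h2]
      exact hC.mts.dis b hb b' hb' (Ne.symm hne') x
  · apply cases3
    · rw [fp]
      constructor
      · intro h; exact absurd h.symm hne
      · rintro (h | h)
        · exact absurd h (hC.nd b hb p hp)
        · rw [mem_erase, mem_erase] at h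
          exact absurd rfl h.2.1
    · rw [fq]
      constructor
      · intro h; exact absurd h hne
      · rintro (h | h)
        · exact absurd h (hC.nd b hb q hq)
        · rw [mem_erase] at h
          exact absurd rfl h.1
    · intro x h1 h2
      rw [fo x h1 h2, hC.unc b hb x, mem_erase, mem_erase]
      constructor
      · rintro (h | h)
        · exact Or.inl h
        · exact Or.inr ⟨h2, h1, h⟩
      · rintro (h | h)
        · exact Or.inl h
        · exact Or.inr h.2.2
  · apply cases3
    · rw [fp]; intro _ _; exact hpq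
    · rw [fq]; intro _ _; exact hpq.symm
    · intro x h1 h2
      rw [fo x h1 h2]
      exact hC.rs b hb x
  · apply cases3
    · intro h1 _; left; rw [hMp]; exact Ne.symm h1
    · intro h1 _; left; rw [hMq]; exact Ne.symm h1
    · intro x h1 h2
      rw [fo x h1 h2]
      intro _ h; exact Or.inl h
  · intro v hv
    rw [mem_erase, mem_erase] at hv
    exact hC.nd b hb v hv.2.2
  · intro b' hne
    exact Function.update_of_ne hne _ _
  · intro x hx
    simp only [tch, mem_filter, mem_univ, true_and, Function.update_self] at hx ⊢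
    refine ⟨hx.1, ?_⟩
    by_cases a1 : x = p
    · rw [a1, hMp]
      rw [a1] at hx
      exact Ne.symm hx.1
    · by_cases a2 : x = q
      · rw [a2, hMq]
        rw [a2] at hx
        exact Ne.symm hx.1
      · rw [← fo x a1 a2]; exact hx.2

/-- double counting -/
lemma sum_load (E : Finset ℕ) (N M : ℕ → V → V) :
    ∑ v : V, load E N M v = ∑ b ∈ E, (tch N M b).card := by
  unfold load tch
  simp_rw [card_filter]
  rw [sum_comm]

/-- the choice of a vertex which avoids everything -/
lemma choice {G res : SimpleGraph V} {E : Finset ℕ} {N P : ℕ → V → V} {u r L o : ℕ}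
    {M : ℕ → V → V} {D : ℕ → Finset V} (hC : Co G res E N P L M D)
    (hres : ∀ b ∈ E, ∀ v, N b v ≠ v → ¬ res.Adj v (N b v)) (hN : Mts G E N)
    (hu : ∀ b ∈ E, (univ.filter (fun v => P b v ≠ v)).card ≤ u)
    (hr : ∀ v, (E.filter (fun b => P b v ≠ v)).card ≤ r) (hL : 1 ≤ L)
    (hLo : 2 * ∑ b ∈ E, (univ.filter (fun v => P b v ≠ v)).card ≤ L * o)
    (htch : ∀ b ∈ E, (tch N M b).card ≤ 2 * (univ.filter (fun v => P b v ≠ v)).card)
    {b : ℕ} (hb : b ∈ E) (S : Finset V) (hS : 2 * u + 2 * o + 2 * (r + L) < S.card) (v w : V) :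
    ∃ a ∈ S, a ∉ tch N M b ∧ load E N M a < L ∧ load E N M (N b a) < L ∧
      (res.Adj v a → ∀ b' ∈ E, M b' v ≠ a) ∧ (res.Adj w (N b a) → ∀ b' ∈ E, M b' w ≠ N b a) := by
  set Ov : Finset V := univ.filter (fun a => L ≤ load E N M a) with hOv
  have hov : Ov.card ≤ o := by
    have h1 : L * Ov.card ≤ ∑ a ∈ Ov, load E N M a := by
      rw [mul_comm]
      calc Ov.card * L = ∑ _a ∈ Ov, L := by rw [sum_const, smul_eq_mul]
        _ ≤ ∑ a ∈ Ov, load E N M a := by
          apply sum_le_sum
          intro a ha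
          exact (mem_filter.1 ha).2
    have h2 : ∑ a ∈ Ov, load E N M a ≤ ∑ a : V, load E N M a :=
      sum_le_sum_of_subset (subset_univ _)
    have h3 : ∑ b ∈ E, (tch N M b).card ≤
        ∑ b ∈ E, 2 * (univ.filter (fun v => P b v ≠ v)).card := sum_le_sum htch
    rw [← mul_sum] at h3
    rw [sum_load] at h2
    have h4 : L * Ov.card ≤ L * o := by omega
    exact Nat.le_of_mul_le_mul_left h4 hL
  set Us : V → Finset V := fun v => univ.filter (fun a => res.Adj v a ∧ ∃ b' ∈ E, M b' v = a)
    with hUs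
  have hus : ∀ v, (Us v).card ≤ r + L := by
    intro v
    have hsub : Us v ⊆ ((E.filter (fun b => P b v ≠ v)) ∪
        (E.filter (fun b => N b v ≠ v ∧ M b v ≠ N b v))).image (fun b' => M b' v) := by
      intro a ha
      rw [hUs] at ha
      simp only [mem_filter, mem_univ, true_and] at ha
      obtain ⟨h1, b', hb', h2⟩ := ha
      rw [mem_image]
      refine ⟨b', ?_, h2⟩
      have hav : M b' v ≠ v := by rw [h2]; exact h1.ne'
      rw [mem_union, mem_filter, mem_filter]
      by_cases hNv : N b' v = v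
      · left
        refine ⟨hb', fun h => hav ((hC.unc b' hb' v).2 (Or.inl ⟨hNv, h⟩))⟩
      · right
        refine ⟨hb', hNv, fun h => ?_⟩
        apply hres b' hb' v hNv
        rw [← h, h2]; exact h1
    calc (Us v).card ≤ _ := card_le_card hsub
      _ ≤ _ := card_image_le
      _ ≤ _ := card_union_le _ _
      _ ≤ r + L := Nat.add_le_add (hr v) (hC.ld v)
  set B : Finset V := tch N M b ∪ Ov ∪ Ov.image (N b) ∪ Us v ∪ (Us w).image (N b) with hB
  have hBc : B.card ≤ 2 * u + 2 * o + 2 * (r + L) := by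
    have c1 := card_union_le (tch N M b ∪ Ov ∪ Ov.image (N b) ∪ Us v) ((Us w).image (N b))
    have c2 := card_union_le (tch N M b ∪ Ov ∪ Ov.image (N b)) (Us v)
    have c3 := card_union_le (tch N M b ∪ Ov) (Ov.image (N b))
    have c4 := card_union_le (tch N M b) Ov
    have c5 : ((Us w).image (N b)).card ≤ (Us w).card := card_image_le
    have c6 : (Ov.image (N b)).card ≤ Ov.card := card_image_le
    have c7 := hus v
    have c8 := hus w
    have c9 := htch b hb
    have c10 := hu b hb
    rw [hB]
    omega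
  obtain ⟨a, haS, haB⟩ := exists_mem_notMem_of_card_lt_card (lt_of_le_of_lt hBc hS)
  have hNN : N b (N b a) = a := hN.inv b hb a
  simp only [hB, mem_union, not_or, mem_image, not_exists, not_and] at haB
  obtain ⟨⟨⟨⟨h1, h2⟩, h3⟩, h4⟩, h5⟩ := haB
  refine ⟨a, haS, h1, ?_, ?_, ?_, ?_⟩
  · by_contra h
    exact h2 (mem_filter.2 ⟨mem_univ _, not_lt.1 h⟩)
  · by_contra h
    exact h3 (N b a) (mem_filter.2 ⟨mem_univ _, not_lt.1 h⟩) hNN
  · intro hva b' hb' h
    exact h4 (mem_filter.2 ⟨mem_univ _, hva, b', hb', h⟩)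
  · intro hva b' hb' h
    exact h5 (N b a) (mem_filter.2 ⟨mem_univ _, hva, b', hb', h⟩) hNN

lemma untouched {N M : ℕ → V → V} {b : ℕ} {a : V} (h1 : N b a ≠ a) (h2 : a ∉ tch N M b) :
    M b a = N b a := by
  by_contra h
  exact h2 (mem_filter.2 ⟨mem_univ _, h1, h⟩)

/-- one pair of TYPE 3 -/
lemma type3 {G res : SimpleGraph V} {E : Finset ℕ} {N P : ℕ → V → V} {T : ℕ → V → V → Prop}
    {u r L o K : ℕ}
    {M : ℕ → V → V} {D : ℕ → Finset V} (hC : Co G res E N P L M D) (hle : res ≤ G)
    (hres : ∀ b ∈ E, ∀ v, N b v ≠ v → ¬ res.Adj v (N b v)) (hN : Mts G E N)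
    (hu : ∀ b ∈ E, (univ.filter (fun v => P b v ≠ v)).card ≤ u)
    (hr : ∀ v, (E.filter (fun b => P b v ≠ v)).card ≤ r) (hL : 1 ≤ L)
    (hLo : 2 * ∑ b ∈ E, (univ.filter (fun v => P b v ≠ v)).card ≤ L * o)
    (hK : 2 * u + 2 * o + 2 * (r + L) + 8 ≤ K)
    (hT3 : ∀ b ∈ E, ∀ v w, P b v ≠ v → v ≠ w → T b v w →
      K ≤ (univ.filter (fun a => N b a ≠ a ∧ res.Adj v a ∧ res.Adj (N b a) w)).card)
    (htch : ∀ b ∈ E, (tch N M b).card ≤ 2 * (univ.filter (fun v => P b v ≠ v)).card)
    {b : ℕ} (hb : b ∈ E) {v w : V} (hv : v ∈ D b) (hw : w ∈ D b) (hPv : P b v ≠ v)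
    (hvw : v ≠ w) (hT : T b v w) :
    ∃ M' : ℕ → V → V, Co G res E N P L M' (Function.update D b (((D b).erase v).erase w)) ∧
      (∀ b', b' ≠ b → M' b' = M b') ∧ (tch N M' b).card ≤ (tch N M b).card + 2 := by
  have hcard := hT3 b hb v w hPv hvw hT
  obtain ⟨a, haS, h1, h2, h3, h4, h5⟩ := choice hC hres hN hu hr hL hLo htch hb
    (univ.filter (fun a => N b a ≠ a ∧ res.Adj v a ∧ res.Adj (N b a) w)) (by omega) v w
  simp only [mem_filter, mem_univ, true_and] at haS
  obtain ⟨hNa, hva, haw⟩ := haS
  have hMa : M b a = N b a := untouched hNa h1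
  have hun1 : ∀ b' ∈ E, M b' v ≠ a := h4 hva
  have hun2 : ∀ b' ∈ E, M b' w ≠ N b a := h5 haw.symm
  obtain ⟨M1, hC1, hs1, ht1⟩ := prim1 hC hle hN hb hv hNa hMa hva hun1 h2 h3
  have hMa' : M b (N b a) = a := by rw [← hMa]; exact hC.mts.inv b hb a
  have ha'D : N b a ∉ D b := by
    intro h
    have := (hC.unc b hb _).2 (Or.inr h)
    rw [hMa'] at this
    exact hNa this.symm
  have hMw : M b w = w := (hC.unc b hb w).2 (Or.inr hw)
  set D1 := Function.update D b (insert (N b a) ((D b).erase v)) with hD1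
  have hD1b : D1 b = insert (N b a) ((D b).erase v) := by rw [hD1]; exact Function.update_self ..
  have hp : N b a ∈ D1 b := by rw [hD1b]; exact mem_insert_self _ _
  have hq : w ∈ D1 b := by
    rw [hD1b]; exact mem_insert_of_mem (mem_erase.2 ⟨hvw.symm, hw⟩)
  have hun3 : ∀ b' ∈ E, M1 b' (N b a) ≠ w := by
    intro b' hb' h
    by_cases hbb : b' = b
    · subst hbb
      have := (hC1.unc b' hb' _).2 (Or.inr hp)
      rw [this] at h
      exact haw.ne h
    · rw [hs1 b' hbb] at h
      apply hun2 b' hb'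
      rw [← h]; exact hC.mts.inv b' hb' _
  obtain ⟨M2, hC2, hs2, ht2⟩ := prim2 hC1 hle hb hp hq haw hun3
  refine ⟨M2, ?_, ?_, ?_⟩
  · have : Function.update D1 b (((D1 b).erase (N b a)).erase w) =
        Function.update D b (((D b).erase v).erase w) := by
      rw [hD1b, hD1, Function.update_idem, erase_insert]
      intro h
      exact ha'D (mem_erase.1 h).2
    rw [← this]
    exact hC2
  · intro b' hbb
    rw [hs2 b' hbb, hs1 b' hbb]
  · calc (tch N M2 b).card ≤ (tch N M1 b).card := card_le_card ht2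
      _ ≤ (tch N M b ∪ {a, N b a}).card := card_le_card ht1
      _ ≤ (tch N M b).card + ({a, N b a} : Finset V).card := card_union_le _ _
      _ ≤ (tch N M b).card + 2 := Nat.add_le_add_left card_le_two _

/-- one pair -/
lemma onepair {G res : SimpleGraph V} {E : Finset ℕ} {N P : ℕ → V → V} {T : ℕ → V → V → Prop}
    {u r L o K : ℕ}
    {M : ℕ → V → V} {D : ℕ → Finset V} (hC : Co G res E N P L M D) (hle : res ≤ G)
    (hres : ∀ b ∈ E, ∀ v, N b v ≠ v → ¬ res.Adj v (N b v)) (hN : Mts G E N)
    (hu : ∀ b ∈ E, (univ.filter (fun v => P b v ≠ v)).card ≤ u)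
    (hr : ∀ v, (E.filter (fun b => P b v ≠ v)).card ≤ r) (hL : 1 ≤ L)
    (hLo : 2 * ∑ b ∈ E, (univ.filter (fun v => P b v ≠ v)).card ≤ L * o)
    (hK : 2 * u + 2 * o + 2 * (r + L) + 8 ≤ K)
    (hT3 : ∀ b ∈ E, ∀ v w, P b v ≠ v → v ≠ w → T b v w →
      K ≤ (univ.filter (fun a => N b a ≠ a ∧ res.Adj v a ∧ res.Adj (N b a) w)).card)
    (hT5 : ∀ b ∈ E, ∀ v, P b v ≠ v → ¬ T b v (P b v) →
      K ≤ (univ.filter (fun c => N b c ≠ c ∧ res.Adj (P b v) c ∧ T b v (N b c))).card)
    (hpot : ∀ b ∈ E, (tch N M b).card + 2 * (D b).card ≤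
      2 * (univ.filter (fun v => P b v ≠ v)).card)
    {b : ℕ} (hb : b ∈ E) {v : V} (hv : v ∈ D b) (hw : P b v ∈ D b) (hPv : P b v ≠ v) :
    ∃ M' : ℕ → V → V, Co G res E N P L M'
        (Function.update D b (((D b).erase v).erase (P b v))) ∧
      (∀ b', b' ≠ b → M' b' = M b') ∧ (tch N M' b).card ≤ (tch N M b).card + 4 := by
  have htch : ∀ b ∈ E, (tch N M b).card ≤ 2 * (univ.filter (fun v => P b v ≠ v)).card := by
    intro b hb
    have := hpot b hb
    omega
  by_cases hT : T b v (P b v)
  · obtain ⟨M', h1, h2, h3⟩ := type3 hC hle hres hN hu hr hL hLo hK hT3 htch hb hv hw hPv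
      hPv.symm hT
    exact ⟨M', h1, h2, by omega⟩
  · have hcard := hT5 b hb v hPv hT
    set w := P b v with hwdef
    obtain ⟨c, hcS, h1, h2, h3, h4, _⟩ := choice hC hres hN hu hr hL hLo htch hb
      (univ.filter (fun c => N b c ≠ c ∧ res.Adj w c ∧ T b v (N b c))) (by omega) w w
    simp only [mem_filter, mem_univ, true_and] at hcS
    obtain ⟨hNc, hwc, hTc⟩ := hcS
    have hMc : M b c = N b c := untouched hNc h1
    have hun : ∀ b' ∈ E, M b' w ≠ c := h4 hwc
    obtain ⟨M1, hC1, hs1, ht1⟩ := prim1 hC hle hN hb hw hNc hMc hwc hun h2 h3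
    have hMc' : M b (N b c) = c := by rw [← hMc]; exact hC.mts.inv b hb c
    have hc'D : N b c ∉ D b := by
      intro h
      have := (hC.unc b hb _).2 (Or.inr h)
      rw [hMc'] at this
      exact hNc this.symm
    have hvc' : v ≠ N b c := fun h => hc'D (h ▸ hv)
    set D1 := Function.update D b (insert (N b c) ((D b).erase w)) with hD1
    have hD1b : D1 b = insert (N b c) ((D b).erase w) := by
      rw [hD1]; exact Function.update_self ..
    have hv1 : v ∈ D1 b := by
      rw [hD1b]; exact mem_insert_of_mem (mem_erase.2 ⟨hPv.symm, hv⟩)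
    have hc1 : N b c ∈ D1 b := by rw [hD1b]; exact mem_insert_self _ _
    have ht1c : (tch N M1 b).card ≤ (tch N M b).card + 2 := by
      calc (tch N M1 b).card ≤ (tch N M b ∪ {c, N b c}).card := card_le_card ht1
        _ ≤ (tch N M b).card + ({c, N b c} : Finset V).card := card_union_le _ _
        _ ≤ (tch N M b).card + 2 := Nat.add_le_add_left card_le_two _
    have hDpos : 1 ≤ (D b).card := card_pos.2 ⟨v, hv⟩
    have htch1 : ∀ b' ∈ E, (tch N M1 b').card ≤
        2 * (univ.filter (fun v => P b' v ≠ v)).card := by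
      intro b' hb'
      by_cases hbb : b' = b
      · subst hbb
        have := hpot b' hb'
        omega
      · have : tch N M1 b' = tch N M b' := by unfold tch; rw [hs1 b' hbb]
        rw [this]
        exact htch b' hb'
    obtain ⟨M2, hC2, hs2, ht2⟩ := type3 hC1 hle hres hN hu hr hL hLo hK hT3 htch1 hb hv1 hc1 hPv
      hvc' hTc
    refine ⟨M2, ?_, ?_, by omega⟩
    · have : Function.update D1 b (((D1 b).erase v).erase (N b c)) =
          Function.update D b (((D b).erase v).erase w) := by
        rw [hD1b, hD1, Function.update_idem]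
        congr 1
        ext x
        simp only [mem_erase, mem_insert]
        constructor
        · rintro ⟨h1, h2, h3 | h3⟩
          · exact absurd h3 h1
          · exact ⟨h3.1, h2, h3.2⟩
        · rintro ⟨h1, h2, h3⟩
          exact ⟨fun h => hc'D (h ▸ h3), h2, Or.inr ⟨h1, h3⟩⟩
      rw [← this]
      exact hC2
    · intro b' hbb
      rw [hs2 b' hbb, hs1 b' hbb]

/-- all pairs -/
lemma allpairs {G res : SimpleGraph V} {E : Finset ℕ} {N P : ℕ → V → V} {T : ℕ → V → V → Prop}
    {u r L o K : ℕ} (hle : res ≤ G)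
    (hres : ∀ b ∈ E, ∀ v, N b v ≠ v → ¬ res.Adj v (N b v)) (hN : Mts G E N)
    (hPi : ∀ b ∈ E, ∀ v, P b (P b v) = v)
    (hu : ∀ b ∈ E, (univ.filter (fun v => P b v ≠ v)).card ≤ u)
    (hr : ∀ v, (E.filter (fun b => P b v ≠ v)).card ≤ r) (hL : 1 ≤ L)
    (hLo : 2 * ∑ b ∈ E, (univ.filter (fun v => P b v ≠ v)).card ≤ L * o)
    (hK : 2 * u + 2 * o + 2 * (r + L) + 8 ≤ K)
    (hT3 : ∀ b ∈ E, ∀ v w, P b v ≠ v → v ≠ w → T b v w →
      K ≤ (univ.filter (fun a => N b a ≠ a ∧ res.Adj v a ∧ res.Adj (N b a) w)).card)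
    (hT5 : ∀ b ∈ E, ∀ v, P b v ≠ v → ¬ T b v (P b v) →
      K ≤ (univ.filter (fun c => N b c ≠ c ∧ res.Adj (P b v) c ∧ T b v (N b c))).card) (n : ℕ) :
    ∀ (M : ℕ → V → V) (D : ℕ → Finset V), Co G res E N P L M D →
    (∀ b ∈ E, (tch N M b).card + 2 * (D b).card ≤
      2 * (univ.filter (fun v => P b v ≠ v)).card) →
    (∀ b ∈ E, ∀ v ∈ D b, P b v ≠ v ∧ P b v ∈ D b) → ∑ b ∈ E, (D b).card ≤ n →
    ∃ (M' : ℕ → V → V) (D' : ℕ → Finset V), Co G res E N P L M' D' ∧ ∀ b ∈ E, D' b = ∅ := by
  induction n with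
  | zero =>
    intro M D hC _ _ hs
    refine ⟨M, D, hC, ?_⟩
    intro b hb
    have := single_le_sum (f := fun b => (D b).card) (fun _ _ => Nat.zero_le _) hb
    exact card_eq_zero.1 (by omega)
  | succ n ih =>
    intro M D hC hpot hD hs
    by_cases hE : ∀ b ∈ E, D b = ∅
    · exact ⟨M, D, hC, hE⟩
    · push Not at hE
      obtain ⟨b, hb, hne⟩ := hE
      obtain ⟨v, hv⟩ := hne
      obtain ⟨hPv, hw⟩ := hD b hb v hv
      obtain ⟨M', hC', hs', ht'⟩ := onepair hC hle hres hN hu hr hL hLo hK hT3 hT5 hpot hb hv hw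
        hPv
      have hc1 : ((D b).erase v).card = (D b).card - 1 := card_erase_of_mem hv
      have hc2 : (((D b).erase v).erase (P b v)).card = ((D b).erase v).card - 1 :=
        card_erase_of_mem (mem_erase.2 ⟨hPv, hw⟩)
      have hc3 : 2 ≤ (D b).card := by
        have : 1 < (D b).card := one_lt_card.2 ⟨v, hv, P b v, hw, hPv.symm⟩
        omega
      refine ih M' _ hC' ?_ ?_ ?_
      · intro b' hb'
        by_cases hbb : b' = b
        · subst hbb
          rw [Function.update_self]
          have := hpot b' hb'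
          omega
        · rw [Function.update_of_ne hbb]
          have : tch N M' b' = tch N M b' := by unfold tch; rw [hs' b' hbb]
          rw [this]
          exact hpot b' hb'
      · intro b' hb'
        by_cases hbb : b' = b
        · subst hbb
          rw [Function.update_self]
          intro x hx
          rw [mem_erase, mem_erase] at hx
          obtain ⟨h1, h2, h3⟩ := hx
          obtain ⟨h4, h5⟩ := hD b' hb' x h3
          refine ⟨h4, mem_erase.2 ⟨?_, mem_erase.2 ⟨?_, h5⟩⟩⟩
          · intro h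
            apply h2
            rw [← hPi b' hb' x, h, hPi b' hb' v]
          · intro h
            apply h1
            rw [← hPi b' hb' x, h]
        · rw [Function.update_of_ne hbb]
          exact hD b' hb'
      · have hlt : ∑ b' ∈ E, (Function.update D b (((D b).erase v).erase (P b v)) b').card <
            ∑ b' ∈ E, (D b').card := by
          apply sum_lt_sum
          · intro b' _
            by_cases hbb : b' = b
            · subst hbb
              rw [Function.update_self]
              omega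
            · rw [Function.update_of_ne hbb]
          · refine ⟨b, hb, ?_⟩
            rw [Function.update_self]
            omega
        omega

end base

/-- block SWITCH -/
theorem stmt_SWITCH : Stmt_SWITCH.{u} := by
  intro V _ G res E N P T u r L o K hN hle hres hPi hPN hu hr hL hLo hK hT3 hT5
  set D : ℕ → Finset V := fun b => univ.filter (fun v => P b v ≠ v) with hD
  have hN0 : ∀ b, tch N N b = ∅ := by
    intro b
    unfold tch
    rw [filter_eq_empty_iff]
    intro v _ h
    exact h.2 rfl
  have hC : Co G res E N P L N D := by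
    refine ⟨hN, ?_, ?_, ?_, ?_⟩
    · intro b hb v
      simp only [hD, mem_filter, mem_univ, true_and]
      constructor
      · intro h
        by_cases h' : P b v = v
        · exact Or.inl ⟨h, h'⟩
        · exact Or.inr h'
      · rintro (h | h)
        · exact h.1
        · exact hPN b hb v h
    · intro b hb v _ h
      exact absurd rfl h
    · intro v
      unfold load
      rw [filter_false_of_mem]
      · simp
      · intro b _ h
        exact h.2 rfl
    · intro b hb v hv h
      exact (mem_filter.1 hv).2 h.2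
  obtain ⟨M, D', hC', hD'⟩ := allpairs hle hres hN hPi hu hr hL hLo hK hT3 hT5
    (∑ b ∈ E, (D b).card) N D hC (by intro b hb; rw [hN0]; simp [hD]) (by
      intro b hb v hv
      simp only [hD, mem_filter, mem_univ, true_and] at hv ⊢
      refine ⟨hv, ?_⟩
      rw [hPi b hb v]
      exact Ne.symm hv) le_rfl
  refine ⟨M, hC'.mts, ?_, hC'.rs, hC'.ld⟩
  intro b hb v
  rw [hC'.unc b hb v, hD' b hb]
  simp

end Pool.Agent.Work.MP_db9399_lt.helper99
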